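import Mathlib
import Pool.Agent.Work.MP_db9399_mad.Interface

set_option autoImplicit false

namespace Pool.Agent.Work.MP_db9399_mad.helper75

open Finset
open _root_.MP_db9399_co

section
variable {Z : Type} [Fintype Z]

/-- shift -/
def shE (a : ZMod 11) : Z × ZMod 11 ≃ Z × ZMod 11 :=
  Equiv.prodCongr (Equiv.refl Z) (Equiv.addRight a)

theorem shE_apply (a : ZMod 11) (x : Z × ZMod 11) : shE a x = (x.1, x.2 + a) := rfl

/-- energy of the shift -/
noncomputable def AA (u : Z × ZMod 11 → ℝ) (a : ZMod 11) : ℝ :=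
  ∑ x : Z × ZMod 11, (u (x.1, x.2 + a) - u x) ^ 2

theorem sum_shift (f : Z × ZMod 11 → ℝ) (a : ZMod 11) :
    ∑ x : Z × ZMod 11, f (x.1, x.2 + a) = ∑ x, f x :=
  Equiv.sum_comp (shE a) f

theorem AA_nonneg (u : Z × ZMod 11 → ℝ) (a : ZMod 11) : 0 ≤ AA u a :=
  Finset.sum_nonneg fun _ _ => sq_nonneg _

theorem AA_add (u : Z × ZMod 11 → ℝ) (a b : ZMod 11) :
    AA u (a + b) ≤ 2 * AA u a + 2 * AA u b := by
  have h1 : AA u b = ∑ x : Z × ZMod 11, (u (x.1, x.2 + a + b) - u (x.1, x.2 + a)) ^ 2 := by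
    unfold AA
    rw [← sum_shift (fun x => (u (x.1, x.2 + b) - u x) ^ 2) a]
  rw [h1]
  unfold AA
  rw [Finset.mul_sum, Finset.mul_sum, ← Finset.sum_add_distrib]
  apply Finset.sum_le_sum
  intro x _
  rw [← add_assoc]
  nlinarith [sq_nonneg ((u (x.1, x.2 + a) - u x) - (u (x.1, x.2 + a + b) - u (x.1, x.2 + a)))]

theorem AA_neg (u : Z × ZMod 11 → ℝ) (a : ZMod 11) : AA u (-a) = AA u a := by
  unfold AA
  rw [← sum_shift (fun x => (u (x.1, x.2 + -a) - u x) ^ 2) a]
  apply Finset.sum_congr rfl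
  intro x _
  simp only [add_neg_cancel_right]
  ring

theorem AA_bounds (u : Z × ZMod 11 → ℝ) :
    AA u 2 ≤ 4 * AA u 1 ∧ AA u 3 ≤ 10 * AA u 1 ∧ AA u 4 ≤ 16 * AA u 1 ∧ AA u 5 ≤ 34 * AA u 1 := by
  have h2 := AA_add u 1 1
  have h3 := AA_add u 2 1
  have h4 := AA_add u 2 2
  have h5 := AA_add u 4 1
  have e2 : (1 : ZMod 11) + 1 = 2 := by decide
  have e3 : (2 : ZMod 11) + 1 = 3 := by decide
  have e4 : (2 : ZMod 11) + 2 = 4 := by decide
  have e5 : (4 : ZMod 11) + 1 = 5 := by decide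
  rw [e2] at h2
  rw [e3] at h3
  rw [e4] at h4
  rw [e5] at h5
  refine ⟨by linarith, by linarith, by linarith, by linarith⟩

theorem sum_erase (g : ZMod 11 → ℝ) : ∑ d ∈ univ.erase (0 : ZMod 11), g d =
    g 1 + g 2 + g 3 + g 4 + g 5 + g (-1) + g (-2) + g (-3) + g (-4) + g (-5) := by
  have h : univ.erase (0 : ZMod 11) = {1, 2, 3, 4, 5, -1, -2, -3, -4, -5} := by decide
  rw [h]
  repeat rw [Finset.sum_insert (by decide)]
  rw [Finset.sum_singleton]
  ring

theorem sum_four (g : ZMod 11 → ℝ) : ∑ d ∈ ({2, 3, 4, 5} : Finset (ZMod 11)), g d =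
    g 2 + g 3 + g 4 + g 5 := by
  repeat rw [Finset.sum_insert (by decide)]
  rw [Finset.sum_singleton]
  ring

theorem sum_univ11 (g : ZMod 11 → ℝ) : ∑ d, g d =
    g 0 + g 1 + g 2 + g 3 + g 4 + g 5 + g (-1) + g (-2) + g (-3) + g (-4) + g (-5) := by
  rw [← Finset.add_sum_erase univ g (Finset.mem_univ 0), sum_erase]
  ring

/-- mean over the fibre -/
noncomputable def mn (u : Z × ZMod 11 → ℝ) (z : Z) : ℝ := (∑ h, u (z, h)) / 11

theorem sum_prod (f : Z × ZMod 11 → ℝ) : ∑ x, f x = ∑ z, ∑ h, f (z, h) := by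
  rw [Fintype.sum_prod_type]

theorem cs11 (g : ZMod 11 → ℝ) : (∑ d, g d) ^ 2 ≤ 11 * ∑ d, g d ^ 2 := by
  have := sq_sum_le_card_mul_sum_sq (s := (univ : Finset (ZMod 11))) (f := g)
  simpa [ZMod.card] using this

theorem dev_le (u : Z × ZMod 11 → ℝ) :
    ∑ x : Z × ZMod 11, (u x - mn u x.1) ^ 2 ≤ 12 * AA u 1 := by
  have h1 : ∀ x : Z × ZMod 11, (u x - mn u x.1) ^ 2 ≤
      (∑ j : ZMod 11, (u (x.1, x.2 + j) - u x) ^ 2) / 11 := by
    intro x
    have h2 : ∑ h, u (x.1, h) = ∑ j : ZMod 11, u (x.1, x.2 + j) := by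
      rw [← Equiv.sum_comp (Equiv.addLeft x.2) (fun h => u (x.1, h))]
      rfl
    have h3 : u x - mn u x.1 = -(∑ j : ZMod 11, (u (x.1, x.2 + j) - u x)) / 11 := by
      unfold mn
      rw [h2, Finset.sum_sub_distrib]
      simp [ZMod.card]
      ring
    rw [h3]
    have h4 := cs11 (fun j => u (x.1, x.2 + j) - u x)
    rw [div_pow, neg_sq]
    rw [div_le_div_iff₀ (by norm_num) (by norm_num)]
    linarith
  have h5 : ∑ x : Z × ZMod 11, (u x - mn u x.1) ^ 2 ≤ (∑ j : ZMod 11, AA u j) / 11 := by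
    refine (Finset.sum_le_sum fun x _ => h1 x).trans (le_of_eq ?_)
    rw [← Finset.sum_div, Finset.sum_comm]
    rfl
  refine h5.trans ?_
  rw [sum_univ11, AA_neg, AA_neg, AA_neg, AA_neg, AA_neg]
  obtain ⟨a2, a3, a4, a5⟩ := AA_bounds u
  have a0 : AA u 0 = 0 := by
    unfold AA
    simp
  have a1 := AA_nonneg u 1
  rw [a0]
  linarith

end

theorem stmt_LIFT : Stmt_LIFT := by
  intro Z _ C p hC hp1 hpn hpoin u hu
  classical
  set N : ℝ := ∑ x, u x ^ 2 with hN
  have hN0 : 0 ≤ N := Finset.sum_nonneg fun _ _ => sq_nonneg _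
  -- the maps
  set S : ZMod 11 → (Z × ZMod 11 ≃ Z × ZMod 11) := fun d =>
    Equiv.prodCongr (p d) (Equiv.addRight d) with hS
  have hSa : ∀ d x, S d x = (p d x.1, x.2 + d) := fun d x => rfl
  set D : ZMod 11 → ℝ := fun d => ∑ x, (u (S d x) - u x) ^ 2 with hD
  set E : ZMod 11 → ℝ := fun d => ∑ x, (u (S d x) + u x) ^ 2 with hE
  have hD0 : ∀ d, 0 ≤ D d := fun d => Finset.sum_nonneg fun _ _ => sq_nonneg _
  have hE0 : ∀ d, 0 ≤ E d := fun d => Finset.sum_nonneg fun _ _ => sq_nonneg _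
  have hSinv : ∀ d x, S (-d) (S d x) = x := by
    intro d x
    rw [hSa, hSa, hpn]
    simp
  have hDn : ∀ d, D (-d) = D d := by
    intro d
    simp only [hD]
    rw [← Equiv.sum_comp (S d) (fun x => (u (S (-d) x) - u x) ^ 2)]
    apply Finset.sum_congr rfl
    intro x _
    rw [hSinv]; ring
  have hEn : ∀ d, E (-d) = E d := by
    intro d
    simp only [hE]
    rw [← Equiv.sum_comp (S d) (fun x => (u (S (-d) x) + u x) ^ 2)]
    apply Finset.sum_congr rfl
    intro x _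
    rw [hSinv]; ring
  have hNS : ∀ d, ∑ x, u (S d x) ^ 2 = N := fun d => Equiv.sum_comp (S d) (fun x => u x ^ 2)
  set T : ZMod 11 → ℝ := fun d => ∑ x, u x * u (S d x) with hT
  have hTD : ∀ d, T d = N - D d / 2 := by
    intro d
    have h1 : D d = ∑ x, (u (S d x) ^ 2 + u x ^ 2 - 2 * (u x * u (S d x))) := by
      simp only [hD]
      apply Finset.sum_congr rfl
      intro x _; ring
    rw [Finset.sum_sub_distrib, Finset.sum_add_distrib, hNS, ← Finset.mul_sum] at h1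
    simp only [hT]
    linarith
  have hTE : ∀ d, T d = E d / 2 - N := by
    intro d
    have h1 : E d = ∑ x, (u (S d x) ^ 2 + u x ^ 2 + 2 * (u x * u (S d x))) := by
      simp only [hE]
      apply Finset.sum_congr rfl
      intro x _; ring
    rw [Finset.sum_add_distrib, Finset.sum_add_distrib, hNS, ← Finset.mul_sum] at h1
    simp only [hT]
    linarith
  have hsum : ∑ x : Z × ZMod 11, ∑ d ∈ univ.erase (0 : ZMod 11), u x * u (p d x.1, x.2 + d)
      = ∑ d ∈ univ.erase (0 : ZMod 11), T d := by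
    rw [Finset.sum_comm]
    rfl
  rw [hsum]
  -- D 1 is the energy of the shift
  have hD1 : D 1 = AA u 1 := by
    simp only [hD, AA]
    apply Finset.sum_congr rfl
    intro x _
    rw [hSa, hp1]; rfl
  -- the energy of `p d`
  have hP : ∀ d, ∑ x : Z × ZMod 11, (u (p d x.1, x.2) - u x) ^ 2 ≤ 2 * AA u d + 2 * D d := by
    intro d
    have h1 : AA u d = ∑ x : Z × ZMod 11, (u (p d x.1, x.2 + d) - u (p d x.1, x.2)) ^ 2 := by
      unfold AA
      rw [← Equiv.sum_comp (Equiv.prodCongr (p d) (Equiv.refl (ZMod 11)))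
        (fun x : Z × ZMod 11 => (u (x.1, x.2 + d) - u x) ^ 2)]
      rfl
    rw [h1]
    simp only [hD]
    rw [Finset.mul_sum, Finset.mul_sum, ← Finset.sum_add_distrib]
    apply Finset.sum_le_sum
    intro x _
    rw [hSa]
    nlinarith [sq_nonneg ((u (p d x.1, x.2 + d) - u (p d x.1, x.2)) +
      (u (p d x.1, x.2 + d) - u x))]
  have hmn : ∀ d, ∑ z, (mn u (p d z) - mn u z) ^ 2 ≤ (2 * AA u d + 2 * D d) / 11 := by
    intro d
    have h1 : ∀ z, (mn u (p d z) - mn u z) ^ 2 ≤ (∑ h, (u (p d z, h) - u (z, h)) ^ 2) / 11 := by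
      intro z
      have h2 : mn u (p d z) - mn u z = (∑ h, (u (p d z, h) - u (z, h))) / 11 := by
        unfold mn
        rw [Finset.sum_sub_distrib]; ring
      rw [h2, div_pow, div_le_div_iff₀ (by norm_num) (by norm_num)]
      have h4 := cs11 (fun h => u (p d z, h) - u (z, h))
      linarith
    refine (Finset.sum_le_sum fun z _ => h1 z).trans ?_
    rw [← Finset.sum_div]
    apply div_le_div_of_nonneg_right _ (by norm_num)
    refine le_trans (le_of_eq ?_) (hP d)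
    rw [sum_prod]
  have hmz : ∑ z, mn u z = 0 := by
    unfold mn
    rw [← Finset.sum_div, ← sum_prod, hu]; simp
  have hpo := hpoin (mn u) hmz
  rw [sum_four] at hpo
  obtain ⟨a2, a3, a4, a5⟩ := AA_bounds u
  have a1 := AA_nonneg u 1
  have hmean : ∑ z, mn u z ^ 2 ≤
      C * ((128 * AA u 1 + 2 * (D 2 + D 3 + D 4 + D 5)) / 11) := by
    refine hpo.trans ?_
    apply mul_le_mul_of_nonneg_left _ (by linarith)
    have m2 := hmn 2
    have m3 := hmn 3
    have m4 := hmn 4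
    have m5 := hmn 5
    linarith
  have hdev := dev_le u
  have hNle : N ≤ 2 * (12 * AA u 1) + 22 * ∑ z, mn u z ^ 2 := by
    have h1 : 11 * ∑ z, mn u z ^ 2 = ∑ x : Z × ZMod 11, mn u x.1 ^ 2 := by
      rw [sum_prod]
      simp [ZMod.card, Finset.mul_sum]
    have h2 : N ≤ 2 * ∑ x : Z × ZMod 11, (u x - mn u x.1) ^ 2 +
        2 * ∑ x : Z × ZMod 11, mn u x.1 ^ 2 := by
      rw [hN, Finset.mul_sum, Finset.mul_sum, ← Finset.sum_add_distrib]
      apply Finset.sum_le_sum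
      intro x _
      nlinarith [sq_nonneg ((u x - mn u x.1) - mn u x.1)]
    rw [← h1] at h2
    linarith
  have hd2 := hD0 2
  have hd3 := hD0 3
  have hd4 := hD0 4
  have hd5 := hD0 5
  have hfin : N ≤ 1000 * C * (D 1 + D 2 + D 3 + D 4 + D 5) := by
    rw [hD1]
    have h1 : C * ((128 * AA u 1 + 2 * (D 2 + D 3 + D 4 + D 5)) / 11) * 22 =
        C * (256 * AA u 1 + 4 * (D 2 + D 3 + D 4 + D 5)) := by ring
    have h2 : N ≤ 24 * AA u 1 + C * (256 * AA u 1 + 4 * (D 2 + D 3 + D 4 + D 5)) := by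
      linarith
    have h3 : 24 * AA u 1 ≤ 24 * (C * AA u 1) := by nlinarith
    have h4 : 0 ≤ C * AA u 1 := by positivity
    have h5 : 0 ≤ C * (D 2 + D 3 + D 4 + D 5) := by positivity
    nlinarith
  have hC0 : 0 < C := by linarith
  rw [abs_le]
  constructor
  · -- lower bound
    have e1 : AA u 2 ≤ 4 * E 1 := by
      have h2 : E 1 = ∑ x : Z × ZMod 11, (u (x.1, x.2 + 1) + u x) ^ 2 := by
        simp only [hE]
        apply Finset.sum_congr rfl
        intro x _
        rw [hSa, hp1]; rfl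
      have h1 : ∑ x : Z × ZMod 11, (u (x.1, x.2 + 1 + 1) + u (x.1, x.2 + 1)) ^ 2 = E 1 := by
        rw [h2]
        exact sum_shift (fun x : Z × ZMod 11 => (u (x.1, x.2 + 1) + u x) ^ 2) 1
      have h3 : AA u 2 ≤ 2 * ∑ x : Z × ZMod 11, (u (x.1, x.2 + 1 + 1) + u (x.1, x.2 + 1)) ^ 2 +
          2 * ∑ x : Z × ZMod 11, (u (x.1, x.2 + 1) + u x) ^ 2 := by
        unfold AA
        rw [Finset.mul_sum, Finset.mul_sum, ← Finset.sum_add_distrib]
        apply Finset.sum_le_sum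
        intro x _
        have e2 : x.2 + 2 = x.2 + 1 + 1 := by rw [add_assoc]; rfl
        rw [e2]
        nlinarith [sq_nonneg ((u (x.1, x.2 + 1 + 1) + u (x.1, x.2 + 1)) +
          (u (x.1, x.2 + 1) + u x))]
      rw [h1, ← h2] at h3
      linarith
    have e4 := AA_add u 2 2
    have e8 := AA_add u 4 4
    have e10 := AA_add u 8 2
    have c4 : (2 : ZMod 11) + 2 = 4 := by decide
    have c8 : (4 : ZMod 11) + 4 = 8 := by decide
    have c10 : (8 : ZMod 11) + 2 = -1 := by decide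
    rw [c4] at e4
    rw [c8] at e8
    rw [c10, AA_neg] at e10
    have hN4 : 4 * N ≤ 2 * E 1 + 2 * AA u 1 := by
      have h2 : E 1 = ∑ x : Z × ZMod 11, (u (x.1, x.2 + 1) + u x) ^ 2 := by
        simp only [hE]
        apply Finset.sum_congr rfl
        intro x _
        rw [hSa, hp1]; rfl
      rw [h2, hN]
      unfold AA
      rw [Finset.mul_sum, Finset.mul_sum, Finset.mul_sum, ← Finset.sum_add_distrib]
      apply Finset.sum_le_sum
      intro x _
      nlinarith [sq_nonneg (u (x.1, x.2 + 1))]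
    have hE1 : N ≤ 100 * E 1 := by linarith
    have hs : ∑ d ∈ univ.erase (0 : ZMod 11), T d ≥ -10 * N + E 1 := by
      rw [sum_erase, hTE 1, hTE 2, hTE 3, hTE 4, hTE 5, hTE (-1), hTE (-2), hTE (-3), hTE (-4),
        hTE (-5), hEn, hEn, hEn, hEn, hEn]
      have := hE0 2
      have := hE0 3
      have := hE0 4
      have := hE0 5
      linarith
    have h3 : 1 / (1000 * C) * N ≤ E 1 := by
      have h4 : 1 / (1000 * C) ≤ 1 / 1000 := by
        apply one_div_le_one_div_of_le (by norm_num)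
        linarith
      have h5 : 1 / (1000 * C) * N ≤ 1 / 1000 * N := mul_le_mul_of_nonneg_right h4 hN0
      linarith [hE0 1]
    linarith
  · have hs : ∑ d ∈ univ.erase (0 : ZMod 11), T d = 10 * N - (D 1 + D 2 + D 3 + D 4 + D 5) := by
      rw [sum_erase, hTD 1, hTD 2, hTD 3, hTD 4, hTD 5, hTD (-1), hTD (-2), hTD (-3), hTD (-4),
        hTD (-5), hDn, hDn, hDn, hDn, hDn]
      ring
    rw [hs]
    have h3 : 1 / (1000 * C) * N ≤ D 1 + D 2 + D 3 + D 4 + D 5 := by
      rw [div_mul_eq_mul_div, one_mul, div_le_iff₀ (by positivity)]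
      linarith
    linarith

end Pool.Agent.Work.MP_db9399_mad.helper75
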