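import Mathlib
import Pool.Agent.Work.MP_db9399_mad.Interface

set_option autoImplicit false

namespace Pool.Agent.Work.MP_db9399_mad.helper75

open Finset
open _root_.MP_db9399_co

universe u

theorem ie_sum {V : Type u} [Fintype V] (G : SimpleGraph V) [DecidableRel G.Adj]
    [DecidableEq V] (A B : Finset V) :
    ((G.interedges A B).card : ℝ) =
      ∑ x : V, ∑ y : V, if G.Adj x y then
        (if x ∈ A then (1:ℝ) else 0) * (if y ∈ B then (1:ℝ) else 0) else 0 := by
  rw [← Finset.sum_product', Finset.univ_product_univ]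
  rw [SimpleGraph.interedges, Rel.interedges, Finset.card_filter]
  push_cast
  rw [← Finset.sum_filter_add_sum_filter_not (univ : Finset (V × V)) (fun e => e ∈ A ×ˢ B)]
  have h2 : ∑ x ∈ (univ : Finset (V × V)).filter (fun e => ¬ e ∈ A ×ˢ B),
      (if G.Adj x.1 x.2 then (if x.1 ∈ A then (1:ℝ) else 0) * (if x.2 ∈ B then (1:ℝ) else 0)
        else 0) = 0 := by
    apply Finset.sum_eq_zero
    intro x hx
    rw [Finset.mem_filter, Finset.mem_product] at hx
    by_cases h3 : x.1 ∈ A
    · have h4 : x.2 ∉ B := fun h => hx.2 ⟨h3, h⟩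
      simp [h4]
    · simp [h3]
  rw [h2, add_zero]
  have h5 : (univ : Finset (V × V)).filter (fun e => e ∈ A ×ˢ B) = A ×ˢ B := by
    ext e; simp
  rw [h5]
  apply Finset.sum_congr rfl
  intro x hx
  rw [Finset.mem_product] at hx
  simp [hx.1, hx.2]

theorem stmt_MADE : Stmt_MADE.{u} := by
  intro V _ G _ c h A B
  classical
  have h1 := h (A ∪ B)
  have h2 := h (A ∩ B)
  have h3 : ((A ∪ B).card : ℝ) + (A ∩ B).card = A.card + B.card := by
    exact_mod_cast Finset.card_union_add_card_inter A B
  have h4 : 2 * ((G.interedges A B).card : ℝ) ≤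
      (G.interedges (A ∪ B) (A ∪ B)).card + (G.interedges (A ∩ B) (A ∩ B)).card := by
    have h5 : ((G.interedges A B).card : ℝ) = (G.interedges B A).card := by
      congr 1
      have : Std.Symm G.Adj := ⟨fun a b h => G.adj_symm h⟩
      exact Rel.card_interedges_comm A B
    have h6 : 2 * ((G.interedges A B).card : ℝ) =
        (G.interedges A B).card + (G.interedges B A).card := by rw [← h5]; ring
    rw [h6, ie_sum G A B, ie_sum G B A, ie_sum G (A ∪ B) (A ∪ B), ie_sum G (A ∩ B) (A ∩ B),
      ← Finset.sum_add_distrib, ← Finset.sum_add_distrib]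
    apply Finset.sum_le_sum
    intro x _
    rw [← Finset.sum_add_distrib, ← Finset.sum_add_distrib]
    apply Finset.sum_le_sum
    intro y _
    by_cases h7 : G.Adj x y
    · simp only [h7, if_true, Finset.mem_union, Finset.mem_inter]
      by_cases a1 : x ∈ A <;> by_cases a2 : x ∈ B <;> by_cases a3 : y ∈ A <;>
        by_cases a4 : y ∈ B <;> simp [a1, a2, a3, a4]
    · simp [h7]
  have h8 : c * (((A.card : ℝ) + B.card) / 2) = (c * (A ∪ B).card + c * (A ∩ B).card) / 2 := by
    rw [← mul_add, h3]; ring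
  rw [h8]
  linarith

end Pool.Agent.Work.MP_db9399_mad.helper75
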