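import Mathlib
import Pool.Agent.Work.MP_db9399_mad.Interface
import Pool.Agent.Work.MP_db9399_mad_helper75.MADE

set_option autoImplicit false

namespace Pool.Agent.Work.MP_db9399_mad.helper75

open Finset
open _root_.MP_db9399_co

universe u v

theorem deg_sum {V : Type u} [Fintype V] (G : SimpleGraph V) [DecidableRel G.Adj] (v : V) :
    G.degree v = ∑ y, if G.Adj v y then 1 else 0 := by
  rw [← SimpleGraph.card_neighborFinset_eq_degree, SimpleGraph.neighborFinset_eq_filter,
    Finset.card_filter]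

section
variable {V : Type u} {W : Type v} [Fintype V] [Fintype W] (G : SimpleGraph V)
  (K : SimpleGraph W) (R : V → W → Prop) [DecidableRel G.Adj] [DecidableRel K.Adj]
  [DecidableRel (EG G K R).Adj] [DecidableRel R]

theorem deg_inl (v : V) : (EG G K R).degree (Sum.inl v) =
    G.degree v + (univ.filter (fun w => R v w)).card := by
  rw [deg_sum, Fintype.sum_sum_type, deg_sum G, Finset.card_filter]
  congr 1
  · apply Finset.sum_congr rfl
    intro y _
    have h : (EG G K R).Adj (Sum.inl v) (Sum.inl y) ↔ G.Adj v y := Iff.rfl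
    simp only [h]
  · apply Finset.sum_congr rfl
    intro y _
    have h : (EG G K R).Adj (Sum.inl v) (Sum.inr y) ↔ R v y := Iff.rfl
    simp only [h]

theorem deg_inr (w : W) : (EG G K R).degree (Sum.inr w) =
    (univ.filter (fun v => R v w)).card + K.degree w := by
  rw [deg_sum, Fintype.sum_sum_type, deg_sum K, Finset.card_filter]
  congr 1
  · apply Finset.sum_congr rfl
    intro y _
    have h : (EG G K R).Adj (Sum.inr w) (Sum.inl y) ↔ R y w := Iff.rfl
    simp only [h]
  · apply Finset.sum_congr rfl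
    intro y _
    have h : (EG G K R).Adj (Sum.inr w) (Sum.inr y) ↔ K.Adj w y := Iff.rfl
    simp only [h]

theorem R_le (hR : ∀ w a b, R a w → R b w → a = b) (P : Finset V) (Q : Finset W)
    [DecidableEq V] [DecidableEq W] :
    (∑ a : V, ∑ w : W, if R a w then
      (if a ∈ P then (1:ℝ) else 0) * (if w ∈ Q then (1:ℝ) else 0) else 0) ≤ Q.card := by
  rw [Finset.sum_comm]
  have h1 : (Q.card : ℝ) = ∑ w : W, if w ∈ Q then (1:ℝ) else 0 := by
    simp
  rw [h1]
  apply Finset.sum_le_sum
  intro w _
  by_cases hw : w ∈ Q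
  · simp only [hw, if_true, mul_one]
    by_cases h2 : ∃ a, R a w
    · obtain ⟨a, ha⟩ := h2
      rw [Finset.sum_eq_single a]
      · simp only [ha, if_true]
        split_ifs <;> norm_num
      · intro b _ hb
        rw [if_neg]
        intro h3
        exact hb (hR w b a h3 ha)
      · intro h; exact absurd (Finset.mem_univ a) h
    · push Not at h2
      simp [h2]
  · simp [hw]

theorem ie_split (hR : ∀ w a b, R a w → R b w → a = b) (A B : Finset (V ⊕ W)) :
    (((EG G K R).interedges A B).card : ℝ) ≤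
      (G.interedges A.toLeft B.toLeft).card + (K.interedges A.toRight B.toRight).card
        + A.toRight.card + B.toRight.card := by
  classical
  rw [ie_sum, Fintype.sum_sum_type]
  simp only [Fintype.sum_sum_type]
  rw [Finset.sum_add_distrib, Finset.sum_add_distrib, ie_sum G, ie_sum K]
  have e1 : (∑ x : V, ∑ y : V, if (EG G K R).Adj (Sum.inl x) (Sum.inl y) then
      (if (Sum.inl x : V ⊕ W) ∈ A then (1:ℝ) else 0) *
        (if (Sum.inl y : V ⊕ W) ∈ B then (1:ℝ) else 0) else 0) =
      ∑ x : V, ∑ y : V, if G.Adj x y then (if x ∈ A.toLeft then (1:ℝ) else 0) *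
        (if y ∈ B.toLeft then (1:ℝ) else 0) else 0 := by
    apply Finset.sum_congr rfl
    intro x _
    apply Finset.sum_congr rfl
    intro y _
    have h : (EG G K R).Adj (Sum.inl x) (Sum.inl y) ↔ G.Adj x y := Iff.rfl
    simp only [h, Finset.mem_toLeft]
  have e2 : (∑ x : W, ∑ y : W, if (EG G K R).Adj (Sum.inr x) (Sum.inr y) then
      (if (Sum.inr x : V ⊕ W) ∈ A then (1:ℝ) else 0) *
        (if (Sum.inr y : V ⊕ W) ∈ B then (1:ℝ) else 0) else 0) =
      ∑ x : W, ∑ y : W, if K.Adj x y then (if x ∈ A.toRight then (1:ℝ) else 0) *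
        (if y ∈ B.toRight then (1:ℝ) else 0) else 0 := by
    apply Finset.sum_congr rfl
    intro x _
    apply Finset.sum_congr rfl
    intro y _
    have h : (EG G K R).Adj (Sum.inr x) (Sum.inr y) ↔ K.Adj x y := Iff.rfl
    simp only [h, Finset.mem_toRight]
  have e3 : (∑ x : V, ∑ y : W, if (EG G K R).Adj (Sum.inl x) (Sum.inr y) then
      (if (Sum.inl x : V ⊕ W) ∈ A then (1:ℝ) else 0) *
        (if (Sum.inr y : V ⊕ W) ∈ B then (1:ℝ) else 0) else 0) ≤ B.toRight.card := by
    refine le_trans (le_of_eq ?_) (R_le R hR A.toLeft B.toRight)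
    apply Finset.sum_congr rfl
    intro x _
    apply Finset.sum_congr rfl
    intro y _
    have h : (EG G K R).Adj (Sum.inl x) (Sum.inr y) ↔ R x y := Iff.rfl
    simp only [h, Finset.mem_toRight, Finset.mem_toLeft]
  have e4 : (∑ x : W, ∑ y : V, if (EG G K R).Adj (Sum.inr x) (Sum.inl y) then
      (if (Sum.inr x : V ⊕ W) ∈ A then (1:ℝ) else 0) *
        (if (Sum.inl y : V ⊕ W) ∈ B then (1:ℝ) else 0) else 0) ≤ A.toRight.card := by
    rw [Finset.sum_comm]
    refine le_trans (le_of_eq ?_) (R_le R hR B.toLeft A.toRight)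
    apply Finset.sum_congr rfl
    intro x _
    apply Finset.sum_congr rfl
    intro y _
    have h : (EG G K R).Adj (Sum.inr y) (Sum.inl x) ↔ R x y := Iff.rfl
    simp only [h, Finset.mem_toRight, Finset.mem_toLeft, mul_comm]
  rw [e1, e2]
  linarith

end

theorem stmt_EMBX : Stmt_EMBX.{u} := by
  intro hX hM g hg
  obtain ⟨g0, hg0, hX⟩ := hX
  obtain ⟨γ, hγ, hγg, hγg0, hγ1⟩ : ∃ γ : ℝ, 0 < γ ∧ 4 * γ ≤ g ∧ 4 * γ ≤ g0 ∧ 4 * γ ≤ 1 := by
    refine ⟨min (min g g0) 1 / 4, by positivity, ?_, ?_, ?_⟩
    · have := min_le_left (min g g0) 1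
      have := min_le_left g g0
      linarith
    · have := min_le_left (min g g0) 1
      have := min_le_right g g0
      linarith
    · have := min_le_right (min g g0) 1
      linarith
  refine ⟨γ, hγ, fun ε hε => ⟨⌈10 / ε⌉₊ + ⌈1 / γ⌉₊ + 11, ?_⟩⟩
  intro V _ G _ d hd hdeg hmad
  classical
  have hd1 : 10 / ε ≤ d := (Nat.le_ceil _).trans (by exact_mod_cast (by omega))
  have hd2 : 1 / γ ≤ d := (Nat.le_ceil _).trans (by exact_mod_cast (by omega))
  have hd3 : 10 ≤ ε * d := by
    rw [div_le_iff₀ hε] at hd1; linarith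
  have hd4 : 1 ≤ γ * d := by
    rw [div_le_iff₀ hγ] at hd2; linarith
  obtain ⟨W, _, K, hN, hK⟩ := hX d (50 * Fintype.card V + Fintype.card V * d + 3 * d + 1)
    (by omega)
  obtain ⟨hK1, hK2⟩ := hK
  have hT : Fintype.card (Σ v : V, Fin (d - G.degree v)) ≤ Fintype.card W := by
    rw [Fintype.card_sigma]
    have h1 : ∑ v : V, Fintype.card (Fin (d - G.degree v)) ≤ ∑ v : V, d := by
      apply Finset.sum_le_sum
      intro v _
      simp
    rw [Finset.sum_const, Finset.card_univ, smul_eq_mul] at h1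
    have h2 : 0 ≤ 50 * Fintype.card V := Nat.zero_le _
    omega
  obtain ⟨ι⟩ := Function.Embedding.nonempty_of_card_le hT
  have hR : ∀ w a b, (∃ i, ι ⟨a, i⟩ = w) → (∃ i, ι ⟨b, i⟩ = w) → a = b := by
    rintro w a b ⟨i, hi⟩ ⟨j, hj⟩
    have := ι.injective (hi.trans hj.symm)
    exact congrArg Sigma.fst this
  refine ⟨W, inferInstance, K, fun v w => ∃ i, ι ⟨v, i⟩ = w, hR, ?_⟩
  intro _
  have hdR : (0:ℝ) ≤ d := Nat.cast_nonneg d
  have hcW : (50 * (Fintype.card V : ℝ) + Fintype.card V * d + 3 * d + 1) ≤ Fintype.card W := by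
    exact_mod_cast hN
  have hVd : (0:ℝ) ≤ Fintype.card V * d := by positivity
  have hV0 : (0:ℝ) ≤ Fintype.card V := by positivity
  refine ⟨?_, ?_, ?_⟩
  · rw [Fintype.card_sum]
    push_cast
    nlinarith
  · rintro (v | w)
    · rw [deg_inl]
      have h1 : (univ.filter (fun w => ∃ i, ι ⟨v, i⟩ = w)) =
          (univ : Finset (Fin (d - G.degree v))).image (fun i => ι ⟨v, i⟩) := by
        ext w; simp
      have h2 : (univ.filter (fun w => ∃ i, ι ⟨v, i⟩ = w)).card = d - G.degree v := by
        rw [h1, Finset.card_image_of_injective]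
        · simp
        · intro i j hij
          have := ι.injective hij
          simpa using this
      rw [h2]
      have h3 := hdeg v
      have h4 : G.degree v + (d - G.degree v) = d := by omega
      rw [h4]
      refine ⟨le_refl _, ?_⟩
      nlinarith
    · rw [deg_inr]
      have h1 : (univ.filter (fun v => ∃ i, ι ⟨v, i⟩ = w)).card ≤ 1 := by
        rw [Finset.card_le_one]
        intro a ha b hb
        rw [Finset.mem_filter] at ha hb
        exact hR w a b ha.2 hb.2
      have h2 := hK1 w
      refine ⟨by omega, ?_⟩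
      have h3 : (d : ℝ) ≤ K.degree w + 10 := by exact_mod_cast h2.2
      push_cast
      have h4 : (0:ℝ) ≤ ((univ.filter (fun v => ∃ i, ι ⟨v, i⟩ = w)).card : ℝ) := by positivity
      nlinarith
  · intro A B hBA hA
    have h1 := ie_split G K (fun v w => ∃ i, ι ⟨v, i⟩ = w) hR A B
    have h2 := hM G ((1 - g) * d) hmad A.toLeft B.toLeft
    have cA : A.toLeft.card + A.toRight.card = A.card := Finset.card_toLeft_add_card_toRight
    have cB : B.toLeft.card + B.toRight.card = B.card := Finset.card_toLeft_add_card_toRight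
    rw [Fintype.card_sum] at hA
    have hN2 : 50 * Fintype.card V ≤ Fintype.card W := by
      have : 0 ≤ Fintype.card V * d := Nat.zero_le _
      omega
    have h3 := hK2 A.toRight B.toRight (by omega) (by omega)
    have cA' : (A.toLeft.card : ℝ) + A.toRight.card = A.card := by exact_mod_cast cA
    have cB' : (B.toLeft.card : ℝ) + B.toRight.card = B.card := by exact_mod_cast cB
    have hBA' : (B.card : ℝ) ≤ A.card := by exact_mod_cast hBA
    have a1 : (0:ℝ) ≤ A.toLeft.card := by positivity
    have a2 : (0:ℝ) ≤ A.toRight.card := by positivity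
    have b1 : (0:ℝ) ≤ B.toLeft.card := by positivity
    have b2 : (0:ℝ) ≤ B.toRight.card := by positivity
    have h4 : (1 - g) * d * (((A.toLeft.card : ℝ) + B.toLeft.card) / 2) ≤
        (1 - 4 * γ) * d * (((A.toLeft.card : ℝ) + B.toLeft.card) / 2) := by
      apply mul_le_mul_of_nonneg_right _ (by positivity)
      apply mul_le_mul_of_nonneg_right _ hdR
      linarith
    have h5 : (1 - g0) * d * (((A.toRight.card : ℝ) + B.toRight.card) / 2) ≤
        (1 - 4 * γ) * d * (((A.toRight.card : ℝ) + B.toRight.card) / 2) := by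
      apply mul_le_mul_of_nonneg_right _ (by positivity)
      apply mul_le_mul_of_nonneg_right _ hdR
      linarith
    have h6 : (((EG G K (fun v w => ∃ i, ι ⟨v, i⟩ = w)).interedges A B).card : ℝ) ≤
        (1 - 4 * γ) * d * (((A.card : ℝ) + B.card) / 2) + A.card + B.card := by
      have e : (1 - 4 * γ) * d * (((A.card : ℝ) + B.card) / 2) =
        (1 - 4 * γ) * d * (((A.toLeft.card : ℝ) + B.toLeft.card) / 2) +
        (1 - 4 * γ) * d * (((A.toRight.card : ℝ) + B.toRight.card) / 2) := by
        rw [← cA', ← cB']; ring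
      rw [e]
      linarith
    refine h6.trans ?_
    have h7 : (1 - 4 * γ) * d * (((A.card : ℝ) + B.card) / 2) ≤ (1 - 4 * γ) * d * A.card := by
      apply mul_le_mul_of_nonneg_left (by linarith)
      apply mul_nonneg (by linarith) hdR
    have h8 : (A.card : ℝ) ≤ γ * d * A.card := by nlinarith [Nat.cast_nonneg (α := ℝ) A.card]
    nlinarith

end Pool.Agent.Work.MP_db9399_mad.helper75
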