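import Mathlib
import Pool.Agent.Work.MP_db9399_mad.Interface

set_option autoImplicit false

namespace Pool.Agent.Work.MP_db9399_mad.helper75

open Finset
open _root_.MP_db9399_co

universe u v

section
variable {V : Type u} {W : Type v} (G : SimpleGraph V) (K : SimpleGraph W) (R : V → W → Prop)

/-- the inclusion -/
def inc : G →g EG G K R where
  toFun := Sum.inl
  map_rel' := fun h => h

theorem three_le (hR : ∀ w a b, R a w → R b w → a = b) (u v : V) (huv : u ≠ v)
    (h : 3 ≤ G.edist u v) : 3 ≤ (EG G K R).edist (Sum.inl u) (Sum.inl v) := by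
  have hno1 : ¬ G.Adj u v := by
    intro h1
    rw [← SimpleGraph.edist_eq_one_iff_adj] at h1
    rw [h1] at h
    exact absurd h (by decide)
  have hno2 : ∀ x, G.Adj u x → ¬ G.Adj x v := by
    intro x h1 h2
    have h3 := (SimpleGraph.Walk.cons h1 (.cons h2 .nil)).edist_le
    have h4 := h.trans h3
    simp at h4
    exact absurd h4 (by decide)
  by_contra hlt
  rw [not_le] at hlt
  have hne : (EG G K R).edist (Sum.inl u) (Sum.inl v) ≠ ⊤ := ne_top_of_lt hlt
  obtain ⟨p, hp⟩ := SimpleGraph.exists_walk_of_edist_ne_top hne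
  rw [← hp] at hlt
  have hl : p.length < 3 := by exact_mod_cast hlt
  cases p with
  | cons h1 q =>
    rename_i x
    cases q with
    | nil => exact hno1 h1
    | cons h2 r =>
      rename_i y
      cases r with
      | nil =>
        rcases x with x | w
        · exact hno2 x h1 h2
        · exact huv (hR w u v h1 h2)
      | cons h3 r2 =>
        simp at hl
        omega
  | nil => exact huv rfl

theorem isDist_map (hR : ∀ w a b, R a w → R b w → a = b) (H : G.Subgraph)
    (hH : IsDistThreeMatching H) : IsDistThreeMatching (H.map (inc G K R)) := by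
  constructor
  · intro x hx
    rw [SimpleGraph.Subgraph.map_verts] at hx
    obtain ⟨v, hv, rfl⟩ := hx
    obtain ⟨w, hw, hw2⟩ := hH.1 hv
    refine ⟨Sum.inl w, ?_, ?_⟩
    · exact ⟨v, w, hw, rfl, rfl⟩
    · rintro y ⟨a, b, hab, ha, hb⟩
      have ha' : a = v := Sum.inl_injective ha
      subst ha'
      rw [← hb]
      exact congrArg Sum.inl (hw2 b hab)
  · intro x hx y hy hxy hn
    rw [SimpleGraph.Subgraph.map_verts] at hx hy
    obtain ⟨u, hu, rfl⟩ := hx
    obtain ⟨v, hv, rfl⟩ := hy
    have huv : u ≠ v := fun h => hxy (by rw [h])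
    apply three_le G K R hR u v huv
    apply hH.2 u hu v hv huv
    intro h
    exact hn ⟨u, v, h, rfl, rfl⟩

end

theorem stmt_TRANS : Stmt_TRANS.{u} := by
  intro V W G K R C hR hall H hH c₀ t₀ h0
  classical
  by_cases hV : Nonempty V
  · obtain ⟨v0⟩ := hV
    have hj : Function.Injective (Sym2.map (Sum.inl : V → V ⊕ W)) :=
      Sym2.map.injective Sum.inl_injective
    obtain ⟨c, t, hct, hc, ht⟩ := hall (H.map (inc G K R)) (isDist_map G K R hR H hH)
      (Sum.elim c₀ (fun _ => c₀ v0)) (Function.extend (Sym2.map Sum.inl) t₀ (fun _ => c₀ v0)) (by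
        have key : ∀ x y, (H.map (inc G K R)).spanningCoe.Adj x y →
            ∃ a b, x = Sum.inl a ∧ y = Sum.inl b ∧ H.spanningCoe.Adj a b := by
          intro x y hxy
          obtain ⟨a, b, hab, ha, hb⟩ := hxy
          exact ⟨a, b, ha.symm, hb.symm, hab⟩
        have key2 : ∀ a b : V, (Function.extend (Sym2.map Sum.inl) t₀ (fun _ => c₀ v0))
            s((Sum.inl a : V ⊕ W), Sum.inl b) = t₀ s(a, b) := by
          intro a b
          have := hj.extend_apply t₀ (fun _ => c₀ v0) s(a, b)
          simpa using this
        refine ⟨?_, ?_, ?_⟩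
        · intro x y hxy
          obtain ⟨a, b, rfl, rfl, hab⟩ := key x y hxy
          exact h0.vertex a b hab
        · intro x y z hxy hxz hyz
          obtain ⟨a, b, rfl, rfl, hab⟩ := key x y hxy
          obtain ⟨a', d, ha', rfl, had⟩ := key _ z hxz
          have : a = a' := Sum.inl_injective ha'
          subst this
          rw [key2, key2]
          exact h0.edge a b d hab had (fun h => hyz (by rw [h]))
        · intro x y hxy
          obtain ⟨a, b, rfl, rfl, hab⟩ := key x y hxy
          rw [key2]
          exact h0.incidence a b hab)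
    refine ⟨fun v => c (Sum.inl v), fun e => t (Sym2.map Sum.inl e), ⟨?_, ?_, ?_⟩, ?_, ?_⟩
    · intro a b hab
      exact hct.vertex (Sum.inl a) (Sum.inl b) hab
    · intro a b d hab had hbd
      simp only [Sym2.map_mk]
      exact hct.edge (Sum.inl a) (Sum.inl b) (Sum.inl d) hab had
        (fun h => hbd (Sum.inl_injective h))
    · intro a b hab
      simp only [Sym2.map_mk]
      exact hct.incidence (Sum.inl a) (Sum.inl b) hab
    · intro v hv
      have := hc (Sum.inl v) ⟨v, hv, rfl⟩
      simpa using this
    · intro e he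
      induction e with
      | _ a b =>
        have h1 : H.Adj a b := he
        have h2 := ht s(Sum.inl a, Sum.inl b) (by
          show (H.map (inc G K R)).Adj (Sum.inl a) (Sum.inl b)
          exact ⟨a, b, h1, rfl, rfl⟩)
        simp only [Sym2.map_mk]
        rw [h2]
        have := hj.extend_apply t₀ (fun _ => c₀ v0) s(a, b)
        simpa using this
  · rw [not_nonempty_iff] at hV
    exact ⟨c₀, t₀, ⟨fun a => isEmptyElim a, fun a => isEmptyElim a, fun a => isEmptyElim a⟩,
      fun v _ => rfl, fun e _ => rfl⟩

end Pool.Agent.Work.MP_db9399_mad.helper75
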