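import Pool.Agent.Work.MP_db9399_exp.Final
import Pool.Agent.Work.MP_db9399_mad.Interface
import Pool.Agent.Work.MP_db9399_mad_helper75.MADE
import Pool.Agent.Work.MP_db9399_mad_helper75.EMBX
import Pool.Agent.Work.MP_db9399_mad_helper75.TRANS
import Pool.Agent.Work.MP_db9399_mad_helper75.LIFT
import Pool.Agent.Work.MP_db9399_mad_helper46.GG
import Pool.Agent.Work.MP_db9399_mad_helper46.EXPD
import Pool.Agent.Work.MP_db9399_mad_helper59.BLOW

/-! # MP_db9399: THEOREM MAD, assembly (helper75) -/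

set_option autoImplicit false

namespace Pool.Agent.Work.MP_db9399_mad.helper75

open Finset
open _root_.MP_db9399_co

universe u

theorem stmt_MAD_of (hE : Stmt_EMB.{u}) (hT : Stmt_TRANS.{u})
    (hM : Pool.Agent.Work.MP_db9399_exp.Stmt_MAIN.{u}) : Stmt_MAD.{u} := by
  intro g hg
  obtain ⟨γ, hγ, hE⟩ := hE g hg
  obtain ⟨ε, d0, hε, hM⟩ := hM γ hγ
  obtain ⟨d1, hE⟩ := hE ε hε
  refine ⟨max d0 d1, ?_⟩
  intro V _ G _ d k hd hk hdeg hmad
  obtain ⟨W, _, K, R, hR, h⟩ := hE V G d ((le_max_right _ _).trans hd) hdeg hmad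
  classical
  obtain ⟨h1, h2, h3⟩ := h
  exact hT V W G K R (Fin k) hR
    (hM (V ⊕ W) (EG G K R) d k ((le_max_left _ _).trans hd) h1 hk h2 h3)

theorem stmt_MAD : Stmt_MAD.{u} :=
  stmt_MAD_of
    (stmt_EMBX.{u} (helper46.stmt_EXPD helper46.stmt_GG stmt_LIFT helper59.stmt_BLOW)
      stmt_MADE.{u})
    stmt_TRANS.{u} Pool.Agent.Work.MP_db9399_exp.stmt_MAIN.{u}

end Pool.Agent.Work.MP_db9399_mad.helper75
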